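import Mathlib
import Pool.Agent.W5h72.PP.Neg

/-!
# MP_f8c884_nt: sums of a practical number and an `s`-gonal number
-/

set_option autoImplicit false

open Filter Topology

namespace Pool.Agent.Results.MP_f8c884_nt.AlmostAllRepresentable

/-- `n ≥ 1` is practical if every `m` with `1 ≤ m ≤ n` is a sum of distinct divisors of `n`. -/
def IsPractical (n : ℕ) : Prop :=
  1 ≤ n ∧ ∀ m, 1 ≤ m → m ≤ n → ∃ D ⊆ n.divisors, ∑ d ∈ D, d = m

/-- The `s`-gonal number `P_s(k) = ((s - 2) k ^ 2 - (s - 4) k) / 2` (for `s ≥ 4`). -/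
def polygonal (s k : ℕ) : ℕ := ((s - 2) * k ^ 2 - (s - 4) * k) / 2

/-- `N = p + P_s(k)` for some practical number `p` and some `k ≥ 1`. -/
def Representable (s N : ℕ) : Prop := ∃ p k : ℕ, IsPractical p ∧ 1 ≤ k ∧ N = p + polygonal s k

open Classical in
/-- Let `s > 3`. Almost all natural numbers are `s`-representable if and only if `s` is not `0` or
`4` modulo `12`; in this case there are at most `C X / log X` exceptions up to `X`. -/
theorem result (s : ℕ) (hs : 3 < s) :
    (Tendsto (fun X : ℕ => (((Finset.Icc 1 X).filter fun N => Representable s N).card : ℝ) / X)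
        atTop (𝓝 1) ↔ s % 12 ≠ 0 ∧ s % 12 ≠ 4) ∧
    (s % 12 ≠ 0 ∧ s % 12 ≠ 4 → ∃ C : ℝ, 0 < C ∧ ∀ X : ℕ, 2 ≤ X →
      (((Finset.Icc 1 X).filter fun N => ¬ Representable s N).card : ℝ) ≤
        C * X / Real.log X) := by
  have key : ∀ N, Representable s N ↔ Pool.Agent.W5h72.PP.Rep s N := by
    intro N
    constructor
    · rintro ⟨p, k, h1, h2, h3⟩
      exact ⟨p, k, h1, h2, by rw [h3, polygonal, Pool.Agent.W5h72.PP.poly_eq s k hs h2]⟩
    · rintro ⟨p, k, h1, h2, h3⟩
      exact ⟨p, k, h1, h2, by rw [h3, polygonal, Pool.Agent.W5h72.PP.poly_eq s k hs h2]⟩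
  have key' : Representable s = Pool.Agent.W5h72.PP.Rep s := funext fun N => propext (key N)
  rw [key']
  refine ⟨⟨fun ht => ?_, fun h => ?_⟩, fun h => Pool.Agent.W5h72.PP.few s hs h.1 h.2⟩
  · by_contra hcon
    exact Pool.Agent.W5h72.PP.not_dens s hs (by omega) ht
  · obtain ⟨C, hC, h'⟩ := Pool.Agent.W5h72.PP.few s hs h.1 h.2
    exact Pool.Agent.W5h72.PP.dens _ C hC h'

end Pool.Agent.Results.MP_f8c884_nt.AlmostAllRepresentable
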